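import Pool.Agent.Q94.EnvA

/-! MP_730047_an: the Riesz measure of the lower envelope of δ-subharmonic functions. -/

namespace Pool.Agent.Results.MP_730047_an.CoverEnvelope

open MeasureTheory Set Pool.Agent.Helper486.TP

/-- Let `w 0, …, w (m - 1)` be δ-subharmonic in the domain `Ω ⊆ ℝⁿ` and let `A 0, …, A (r - 1)`,
`r ≥ 2`, be nonempty sets of indices which cover the index set. Then the Riesz measure of
`min_j w j` is at least the greatest lower bound of the Riesz measures of the functions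
`min_{j ∈ A i ∪ A k} w j`, `i < k`. The case `A i = {i}` is the question. -/
theorem result (n : ℕ) (hn : 0 < n) (Ω : Set (E n)) (hΩ : IsOpen Ω) (hΩc : IsPreconnected Ω)
    (m : ℕ) (w : Fin m → E n → EReal) (hw : ∀ j, DeltaSubharmonic Ω (w j)) (c : ℝ) (hc : 0 < c) :
    (∀ S : Finset (Fin m), S.Nonempty → ∃ μ, IsRiesz c Ω (fun x => ⨅ j ∈ S, w j x) μ) ∧
    ∀ (r : ℕ) (A : Fin r → Finset (Fin m)), 2 ≤ r → (∀ i, (A i).Nonempty) →
      (∀ j, ∃ i, j ∈ A i) → ∀ (μ : SignedRadon Ω) (ρ : Fin r → Fin r → SignedRadon Ω),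
      IsRiesz c Ω (fun x => ⨅ j, w j x) μ →
      (∀ i k, i < k → IsRiesz c Ω (fun x => ⨅ j ∈ A i ∪ A k, w j x) (ρ i k)) →
      (∃ I, IsGLB {κ | ∃ i k, i < k ∧ κ = ρ i k} I) ∧
      ∀ I, IsGLB {κ | ∃ i k, i < k ∧ κ = ρ i k} I → I ≤ μ :=
  Pool.Agent.Envelope94.cover_envelope hn hΩ hΩc w hw hc

end Pool.Agent.Results.MP_730047_an.CoverEnvelope
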